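import Pool.Agent.Helper56.MT.M2

/-! MULTI-TYPE LAYER, part 3: resampling over words in the types, mixing (49 (B2)). -/

namespace Pool.Agent.Helper40.EL

open Finset Filter Topology Pool.Agent.Helper69.RK Pool.Agent.Helper31.EC

noncomputable section

namespace Lab

variable {S : Sp} {ι : Type}

/-- the walk of a word: the label is fixed, the point of the space makes one step for every letter (the last letter
first) -/
def wk (A : ι → Part S) (l : Lab S) : List ι → Lab S
  | [] => l
  | i :: w => (wk A l w).rs (A i)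

variable (A : ι → Part S) (l : Lab S)

theorem wk_nil : wk A l [] = l := rfl

theorem wk_cons (i : ι) (w : List ι) : wk A l (i :: w) = (wk A l w).rs (A i) := rfl

theorem wk_append (w w' : List ι) : wk A l (w ++ w') = wk A (wk A l w') w := by
  induction w with
  | nil => rfl
  | cons i w ih => rw [List.cons_append, wk_cons, wk_cons, ih]

theorem wk_leak (i : ι) (w : List ι) (k : ℕ) : (wk A l (i :: w) k).leak (A i k) = 0 := FLab.rs_leak _ _

theorem wk_info (i : ι) (w : List ι) (k : ℕ) :
    (wk A l (i :: w) k).info = (wk A l w k).info - (wk A l w k).leak (A i k) := FLab.rs_info _ _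

theorem wk_info_mono (i : ι) (w : List ι) (k : ℕ) : (wk A l (i :: w) k).info ≤ (wk A l w k).info := by
  rw [wk_info]
  have := FLab.leak_nonneg (wk A l w k) (A i k)
  linarith

theorem wk_info_le (w : List ι) (k : ℕ) : (wk A l w k).info ≤ (l k).info := by
  induction w with
  | nil => exact le_rfl
  | cons i w ih => exact (wk_info_mono A l i w k).trans ih

theorem wk_info_append (w w' : List ι) (k : ℕ) : (wk A l (w ++ w') k).info ≤ (wk A l w' k).info := by
  rw [wk_append]
  exact wk_info_le A (wk A l w') w k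

variable {A l}

theorem wk_UB (hl : UB (fun k => (l k).info / (S.F k).n)) (w : List ι) :
    UB (fun k => (wk A l w k).info / (S.F k).n) := by
  refine UB.sandwich (UB_const 0) hl ?_ ?_
  · exact Eventually.of_forall fun k => div_nonneg (FLab.info_nonneg _) (S.F k).pos.le
  · exact Eventually.of_forall fun k => div_le_div_of_nonneg_right (wk_info_le A l w k) (S.F k).pos.le

theorem wk_info_app (hl : UB (fun k => (l k).info / (S.F k).n)) (w w' : List ι) :
    (wk A l (w ++ w')).info ≤ (wk A l w').info := by
  apply ul_mono (wk_UB hl _) (wk_UB hl _)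
  exact Eventually.of_forall fun k => div_le_div_of_nonneg_right (wk_info_append A l w w' k) (S.F k).pos.le

theorem wk_info_le' (hl : UB (fun k => (l k).info / (S.F k).n)) (w : List ι) : (wk A l w).info ≤ l.info := by
  have h1 := wk_info_app (A := A) hl w []
  rw [List.append_nil] at h1
  exact h1

theorem wk_nonneg (hl : UB (fun k => (l k).info / (S.F k).n)) (w : List ι) : 0 ≤ (wk A l w).info :=
  info_nonneg' (wk_UB hl w)

/-- the rate of the leak of a label -/
def lk (l : Lab S) (B : Part S) : ℝ := ul (fun k => (l k).leak (B k) / (S.F k).n)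

theorem leak_UB (hl : UB (fun k => (l k).info / (S.F k).n)) (B : Part S) :
    UB (fun k => (l k).leak (B k) / (S.F k).n) := by
  refine UB.sandwich (UB_const 0) hl ?_ ?_
  · exact Eventually.of_forall fun k => div_nonneg (FLab.leak_nonneg _ _) (S.F k).pos.le
  · refine Eventually.of_forall fun k => div_le_div_of_nonneg_right ?_ (S.F k).pos.le
    rw [← FLab.leak_bot]
    exact FLab.leak_anti _ bot_le

theorem lk_nonneg (hl : UB (fun k => (l k).info / (S.F k).n)) (B : Part S) : 0 ≤ lk l B :=
  const_le_ul (leak_UB hl B) (Eventually.of_forall fun k => div_nonneg (FLab.leak_nonneg _ _) (S.F k).pos.le)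

theorem nul_of_lk (hl : UB (fun k => (l k).info / (S.F k).n)) {B : Part S} (h : lk l B ≤ 0) :
    Nul S (fun k => (l k).leak (B k)) := by
  have h0 : ∀ᶠ k in UF, 0 ≤ (fun k => (l k).leak (B k)) k :=
    Eventually.of_forall fun k => FLab.leak_nonneg (l k) (B k)
  exact (Nul_iff_ul h0).mpr ⟨leak_UB hl B, h⟩

/-- the decrement of the information is the leak -/
theorem wk_dec (hl : UB (fun k => (l k).info / (S.F k).n)) (i : ι) (w : List ι) :
    (wk A l (i :: w)).info = (wk A l w).info - lk (wk A l w) (A i) := by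
  unfold lk info
  rw [← ul_sub (wk_UB hl w) (leak_UB (wk_UB hl w) _)]
  congr 1
  funext k
  rw [wk_info, sub_div]

/-- an approximate Markov label with small rates of leaks -/
theorem approx_lk [Countable ι] {i₀ : ι} (hA : (A i₀).Bd) (l : ℕ → Lab S)
    (hu : ∀ j, UB (fun k => (l j k).info / (S.F k).n)) (e : ℕ → ℝ) (he : Tendsto e atTop (𝓝 0))
    (hpos : ∀ j, 0 < e j) (v : ℝ) (h1 : ∀ i j, lk (l j) (A i) ≤ e j) (h3 : ∀ j, v ≤ (l j).info) :
    ∃ y : Lab S, y.DMf A ∧ v ≤ y.info := by
  have he2 : Tendsto (fun j => 2 * e j) atTop (𝓝 0) := by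
    have := he.const_mul 2
    rwa [mul_zero] at this
  refine approxf hA l (fun j => 2 * e j) he2 v ?_ ?_
  · intro i
    refine Eventually.of_forall fun j => ?_
    have h4 : lk (l j) (A i) < 2 * e j := by
      have := h1 i j
      have := hpos j
      linarith
    filter_upwards [eventually_lt_of_ul_lt (leak_UB (hu j) _) h4] with k hk using hk.le
  · intro j
    have h4 : v - 2 * e j < (l j).info := by
      have := h3 j
      have := hpos j
      linarith
    filter_upwards [eventually_gt_of_lt_ul (hu j) h4] with k hk using hk.le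

/-- MIXING OVER WORDS: if all Markov labels are trivial, then every label loses its information along some word -/
theorem mixf [Countable ι] {i₀ : ι} (hA : (A i₀).Bd) (htr : ∀ y : Lab S, y.DMf A → y.info ≤ 0)
    (hl : UB (fun k => (l k).info / (S.F k).n)) (ε : ℝ) (hε : 0 < ε) : ∃ w : List ι, (wk A l w).info < ε := by
  set I0 : Set ℝ := Set.range fun w : List ι => (wk A l w).info with hI0
  have hbd : BddBelow I0 := ⟨0, by rintro x ⟨w, rfl⟩; exact wk_nonneg hl w⟩
  have hne : I0.Nonempty := ⟨_, [], rfl⟩
  have hj : ∀ j : ℕ, ∃ w : List ι, (wk A l w).info < sInf I0 + 1 / ((j : ℝ) + 1) := by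
    intro j
    have h2 : sInf I0 < sInf I0 + 1 / ((j : ℝ) + 1) := by
      have : (0 : ℝ) < 1 / ((j : ℝ) + 1) := by positivity
      linarith
    obtain ⟨x, ⟨w, rfl⟩, hx⟩ := exists_lt_of_csInf_lt hne h2
    exact ⟨w, hx⟩
  choose w hw using hj
  obtain ⟨y, hy, hyi⟩ := approx_lk hA (fun j => wk A l (w j)) (fun j => wk_UB hl _) (fun j => 1 / ((j : ℝ) + 1))
    tendsto_one_div_add_atTop_nhds_zero_nat (fun j => by positivity) (sInf I0) (by
      intro i j
      have h1 := wk_dec (A := A) hl i (w j)
      have h2 : sInf I0 ≤ (wk A l (i :: w j)).info := csInf_le hbd ⟨_, rfl⟩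
      have h3 := hw j
      linarith) (fun j => csInf_le hbd ⟨_, rfl⟩)
  have h5 : sInf I0 ≤ 0 := hyi.trans (htr y hy)
  have h6 : sInf I0 < ε := by linarith
  obtain ⟨x, ⟨w, rfl⟩, hx⟩ := exists_lt_of_csInf_lt hne h6
  exact ⟨w, hx⟩

/-- mixing for finitely many labels with one word -/
theorem mixf_list [Countable ι] {i₀ : ι} (hA : (A i₀).Bd) (htr : ∀ y : Lab S, y.DMf A → y.info ≤ 0)
    (L : List (Lab S)) (hL : ∀ l ∈ L, UB (fun k => (l k).info / (S.F k).n)) (ε : ℝ) (hε : 0 < ε) :
    ∃ w : List ι, ∀ l ∈ L, (wk A l w).info < ε := by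
  induction L with
  | nil => exact ⟨[], fun l hl => absurd hl (List.not_mem_nil)⟩
  | cons l L ih =>
    obtain ⟨w, hw⟩ := ih (fun l' h' => hL l' (List.mem_cons_of_mem _ h'))
    obtain ⟨w', hw'⟩ := mixf (l := wk A l w) hA htr (wk_UB (hL l List.mem_cons_self) w) ε hε
    refine ⟨w' ++ w, ?_⟩
    intro l' h'
    rcases List.mem_cons.mp h' with h1 | h1
    · subst h1
      rw [wk_append]
      exact hw'
    · exact (wk_info_app (hL l' h') w' w).trans_lt (hw l' h1)

/-- a label which is a function of another label of the same extension has not more information -/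
theorem wk_mono_label {l l' : Lab S}
    (h : ∀ k, ∃ r : FPj (l k).T (l' k).T, fc (Setoid.comap r.π (l' k).V) ≤ fc (l k).V ∧
      (l k).p.π = fun ω => (l' k).p.π (r.π ω)) (k : ℕ) : (l' k).info ≤ (l k).info := by
  obtain ⟨r, h1, h2⟩ := h k
  have h3 : (l' k).info = I (r.map (l' k).v) (r.map (l' k).p.top) ⊥ := by
    rw [← r.map_bot, r.I_map]
    rfl
  have h4 : r.map (l' k).p.top ≤ (l k).p.top := by
    apply fc_le
    intro ω ω' _ _ _ e
    have e' : (l k).p.π ω = (l k).p.π ω' := e
    show (l' k).p.π (r.π ω) = (l' k).p.π (r.π ω')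
    rw [h2] at e'
    exact e'
  rw [h3]
  exact (I_mono_left (h1.trans le_sup_left)).trans (I_mono_right (h4.trans le_sup_left))

end Lab

end

end Pool.Agent.Helper40.EL
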