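import Pool.Agent.Helper56.MT.M1

/-! MULTI-TYPE LAYER, part 2: families of elements of the entropy lattice. -/

namespace Pool.Agent.Helper40.EL

open Finset Filter Topology Pool.Agent.Helper69.RK Pool.Agent.Helper31.EC

noncomputable section

namespace Lab

variable {S : Sp} {ι ι' : Type}

/-- Markov labels of a family of elements of the lattice -/
def DMLf (l : Lab S) (x : ι → S.L) : Prop := l.DMf (fun i => rp (x i))

/-- maximal Markov labels of a family of elements of the lattice -/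
def IsMaxLf (l : Lab S) (x : ι → S.L) : Prop := l.IsMaxf (fun i => rp (x i))

variable {l l' : Lab S} {x : ι → S.L}

theorem exists_maxLf [Countable ι] [hne : Nonempty ι] (x : ι → S.L) : ∃ l : Lab S, l.IsMaxLf x :=
  exists_maxf _ (rp_Bd (x hne.some))

theorem DMLf.leak (hl : l.DMLf x) (i : ι) : Nul S (fun k => (l k).leak (rp (x i) k)) := hl i

theorem DMLf.dml (hl : l.DMLf x) (i j : ι) : l.DML (x i) (x j) := ⟨hl i, hl j⟩

theorem DMLf_pair {y z : S.L} : l.DMLf ![y, z] ↔ l.DML y z := by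
  constructor
  · intro h
    exact ⟨h 0, h 1⟩
  · rintro ⟨h1, h2⟩ i
    fin_cases i
    · exact h1
    · exact h2

theorem IsMaxLf_pair {y z : S.L} : l.IsMaxLf ![y, z] ↔ l.IsMaxL y z := by
  constructor
  · intro h
    exact ⟨DMLf_pair.mp h.1, fun l' hl' => h.2 l' (DMLf_pair.mpr hl')⟩
  · intro h
    exact ⟨DMLf_pair.mpr h.1, fun l' hl' => h.2 l' (DMLf_pair.mp hl')⟩

theorem DMLf.mono {x' : ι' → S.L} (hl : l.DMLf x) (h : ∀ i, ∃ j, x j ≤ x' i) : l.DMLf x' :=
  DMf.mono (A := fun i => rp (x i)) hl (fun i => (h i).imp fun _ hj => rp_mono hj)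

theorem DMLf.sub (hl : l.DMLf x) (f : ι' → ι) : l.DMLf (fun i => x (f i)) := fun i => hl (f i)

theorem DMLf.join (hl : l.DMLf x) (hl' : l'.DMLf x) : (l.join l').DMLf x := DMf.join hl hl'

theorem IsMaxLf.congr {x' : ι' → S.L} (hl : l.IsMaxLf x) (h : ∀ i, ∃ j, x j ≤ x' i)
    (h' : ∀ i, ∃ j, x' j ≤ x i) : l.IsMaxLf x' :=
  IsMaxf.congr (A := fun i => rp (x i)) hl (fun i => (h i).imp fun _ hj => rp_mono hj)
    (fun i => (h' i).imp fun _ hj => rp_mono hj)

theorem DMLf.info_le (hl : l.DMLf x) (i : ι) : l.info ≤ H (x i) := by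
  have h1 := DMf.info_le (A := fun i => rp (x i)) hl (i := i) (rp_Bd _)
  have h2 : H (x i) = ul (fun k => H (rp (x i) k) / (S.F k).n) := by
    have h3 : H (x i) = H (Sp.cl (rpo (x i))) := by rw [cl_rpo]
    rw [h3, Sp.H_cl]
    congr 1
    funext k
    exact (H_rpI (rpo (x i)) k).symm
  rw [h2]
  exact h1

theorem DMLf.ub (hl : l.DMLf x) (i : ι) : UB (fun k => (l k).info / (S.F k).n) := DMf.ub hl (rp_Bd (x i))

variable (c : ℝ) (hc : 0 < c)

/-- Markov labels over a label, the two forms -/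
theorem DMLf_upL {l2 : Lab (l.ovr c hc)} : l2.DMLf (fun i => l.upL c hc (x i)) ↔
    l2.DMf (fun i => l.up c hc (rp (x i))) := by
  constructor
  · intro h i
    exact ((l.DML_upL c hc).mp (h.dml i i)).1
  · intro h i
    exact ((l.DML_upL c hc).mpr (h.dm i i)).1

theorem DMLf.comp (hl : l.DMLf x) {l2 : Lab (l.ovr c hc)} (h2 : l2.DMLf (fun i => l.upL c hc (x i))) :
    (l.comp c hc l2).DMLf x := DMf.comp hl ((DMLf_upL c hc).mp h2)

variable {c hc}

/-- the information of `l'` about the space beyond a maximal label -/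
theorem IsMaxLf.univ (h : l.IsMaxLf x) (h' : l'.DMLf x) (i : ι) :
    Nul S (fun k => I (((l k).am (l' k)).p2.map (l' k).v) (((l k).am (l' k)).p1.map (l k).p.top)
      (((l k).am (l' k)).p1.map (l k).v)) := IsMaxf.univ h h' (rp_Bd (x i))

/-- a label which knows `l'` up to rate zero knows the common informations of `l'` -/
theorem H_le_of_univ (hU : Nul S (fun k => I (((l k).am (l' k)).p2.map (l' k).v)
      (((l k).am (l' k)).p1.map (l k).p.top) (((l k).am (l' k)).p1.map (l k).v))) (Y : S.L) :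
    H (l.upL c hc Y) ≤ H (l'.upL c hc Y) := by
  rw [l.H_upL, l'.H_upL]
  apply div_le_div_of_nonneg_right _ hc.le
  have hu : ∀ l0 : Lab S, UB (fun k => h ((l0 k).p.map (rp Y k)) (l0 k).v / (S.F k).n) := by
    intro l0
    refine UB.sandwich (UB_const 0) ((rp_Bd Y).ub (fun _ => ⊥)) ?_ ?_
    · exact Eventually.of_forall fun k => div_nonneg (h_nonneg _ _) (S.F k).pos.le
    · refine Eventually.of_forall fun k => div_le_div_of_nonneg_right ?_ (S.F k).pos.le
      rw [h_bot, ← (l0 k).p.H_map]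
      exact h_le_H _ _
  have t1 := (ul_tendsto (hu l')).add hU
  rw [add_zero] at t1
  refine le_of_tendsto_of_tendsto (ul_tendsto (hu l)) t1 ?_
  refine Eventually.of_forall fun k => ?_
  show _ ≤ h ((l' k).p.map (rp Y k)) (l' k).v / (S.F k).n +
    I (((l k).am (l' k)).p2.map (l' k).v) (((l k).am (l' k)).p1.map (l k).p.top)
      (((l k).am (l' k)).p1.map (l k).v) / (S.F k).n
  rw [← add_div]
  apply div_le_div_of_nonneg_right _ (S.F k).pos.le
  set D := (l k).am (l' k) with hD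
  have e1 : D.p1.map ((l k).p.map (rp Y k)) = D.p2.map ((l' k).p.map (rp Y k)) := FLab.am_map _ _ _
  have e2 : h ((l k).p.map (rp Y k)) (l k).v =
      h (D.p1.map ((l k).p.map (rp Y k))) (D.p1.map (l k).v) :=
    (D.p1.h_map _ _).symm
  have e3 : h ((l' k).p.map (rp Y k)) (l' k).v =
      h (D.p1.map ((l k).p.map (rp Y k))) (D.p2.map (l' k).v) := by
    rw [e1]; exact (D.p2.h_map _ _).symm
  rw [e2, e3]
  have h4 := I_eq (D.p1.map ((l k).p.map (rp Y k))) (D.p2.map (l' k).v) (D.p1.map (l k).v)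
  have h5 : I (D.p1.map ((l k).p.map (rp Y k))) (D.p2.map (l' k).v) (D.p1.map (l k).v) ≤
      I (D.p2.map (l' k).v) (D.p1.map (l k).p.top) (D.p1.map (l k).v) := by
    rw [I_comm]
    exact I_mono_right ((D.p1.map_mono ((l k).p.map_le_top _)).trans le_sup_left)
  have h6 : h (D.p1.map ((l k).p.map (rp Y k))) (D.p2.map (l' k).v ⊔ D.p1.map (l k).v) ≤
      h (D.p1.map ((l k).p.map (rp Y k))) (D.p2.map (l' k).v) := h_anti le_sup_left
  linarith

/-- CANONICAL numbers: `h(Y|κ) ≤ h(Y|V)` for every Markov label `V` -/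
theorem IsMaxLf.H_le [hne : Nonempty ι] (hl : l.IsMaxLf x) (hl' : l'.DMLf x) (Y : S.L) :
    H (l.upL c hc Y) ≤ H (l'.upL c hc Y) := H_le_of_univ (hl.univ hl' hne.some) Y

theorem IsMaxLf.H_eq [Nonempty ι] (hl : l.IsMaxLf x) (hl' : l'.IsMaxLf x) (Y : S.L) :
    H (l.upL c hc Y) = H (l'.upL c hc Y) := le_antisymm (hl.H_le hl'.1 Y) (hl'.H_le hl.1 Y)

/-- fewer labels for fewer conditions -/
theorem IsMaxLf.H_le' {x' : ι' → S.L} [Nonempty ι] (hl : l.IsMaxLf x) (hl' : l'.IsMaxLf x')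
    (h : ∀ i, ∃ j, x' j ≤ x i) (Y : S.L) : H (l.upL c hc Y) ≤ H (l'.upL c hc Y) :=
  hl.H_le (DMLf.mono (x := x') (x' := x) hl'.1 h) Y

/-- the label of an information -/
def ofL (Y : S.L) : Lab S :=
  fun k => ⟨(FLab.triv (S.F k)).T, (FLab.triv (S.F k)).p, (FLab.triv (S.F k)).hn, (rpo Y).1 k⟩

theorem ofL_v (Y : S.L) (k : ℕ) : (ofL Y k).v = (ofL Y k).p.map (rp Y k) := rfl

theorem ofL_leak {Y C : S.L} (hC : Y ≤ C) : Nul S (fun k => (ofL Y k).leak (rp C k)) := by
  apply (rp_mono hC).of_le (Eventually.of_forall fun _ => FLab.leak_nonneg _ _)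
  refine Eventually.of_forall fun k => ?_
  have h1 : (ofL Y k).leak (rp C k) ≤ h (ofL Y k).v ((ofL Y k).p.map (rp C k)) := I_le_h_left _ _ _
  rw [ofL_v, (ofL Y k).p.h_map] at h1
  exact h1

/-- the leak of an information -/
theorem ofL_leak_eq (Y C : S.L) (k : ℕ) : (ofL Y k).leak (rp C k) = h (rp Y k) (rp C k) := by
  have h1 : (ofL Y k).leak (rp C k) = I ((ofL Y k).p.map (rp Y k)) (ofL Y k).p.top ((ofL Y k).p.map (rp C k)) := rfl
  rw [h1, I_eq, h_zero (((ofL Y k).p.map_le_top _).trans le_sup_left), sub_zero, (ofL Y k).p.h_map]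

/-- a common information is known to every label which has no information beyond -/
theorem common_of_univ {Y : S.L} (hU : Nul S (fun k => I (((l k).am (ofL Y k)).p2.map (ofL Y k).v)
      (((l k).am (ofL Y k)).p1.map (l k).p.top) (((l k).am (ofL Y k)).p1.map (l k).v))) : l.upL c hc Y = ⊥ := by
  have h2 : Nul S (fun k => h ((l k).p.map (rp Y k)) (l k).v) := by
    apply hU.of_le (Eventually.of_forall fun _ => h_nonneg _ _)
    refine Eventually.of_forall fun k => ?_
    have e1 : ((l k).am (ofL Y k)).p2.map (ofL Y k).v = ((l k).am (ofL Y k)).p1.map ((l k).p.map (rp Y k)) := by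
      rw [ofL_v, FLab.am_map]
    show _ ≤ I (((l k).am (ofL Y k)).p2.map (ofL Y k).v) (((l k).am (ofL Y k)).p1.map (l k).p.top)
      (((l k).am (ofL Y k)).p1.map (l k).v)
    rw [e1, ((l k).am (ofL Y k)).p1.I_map, I_eq, h_zero (((l k).p.map_le_top _).trans le_sup_left), sub_zero]
  have h3 : H (l.upL c hc Y) = 0 := by
    rw [l.H_upL, ul_eq h2, zero_div]
  apply le_antisymm _ bot_le
  rw [← h_eq_zero_iff, h_bot]
  exact h3

/-- a common information is known to the maximal Markov label -/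
theorem IsMaxLf.common [hne : Nonempty ι] (hl : l.IsMaxLf x) {Y : S.L} (hY : ∀ i, Y ≤ x i) : l.upL c hc Y = ⊥ :=
  common_of_univ (hl.univ (fun i => ofL_leak (hY i)) hne.some)

/-- triviality over a maximal label -/
theorem IsMaxLf.triv [hne : Nonempty ι] (hl : l.IsMaxLf x) (l2 : Lab (l.ovr c hc))
    (h2 : l2.DMLf (fun i => l.upL c hc (x i))) : l2.info = 0 := by
  have h3 := IsMaxf.triv hl (rp_Bd (x hne.some)) l2 ((DMLf_upL c hc).mp h2)
  have h4 : Nul (l.ovr c hc) (fun k => (l2 k).info) := (l.nul_over c hc).mpr h3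
  exact ul_eq h4

/-- maximality over a label -/
theorem IsMaxLf.ovr [hne : Nonempty ι] {l2 : Lab (l.ovr c hc)} (h : (l.comp c hc l2).IsMaxLf x) (hl : l.DMLf x)
    (h2 : l2.DMLf (fun i => l.upL c hc (x i))) : l2.IsMaxLf (fun i => l.upL c hc (x i)) := by
  have h3 := IsMaxf.ovr h hl ((DMLf_upL c hc).mp h2) (rp_Bd (x hne.some))
  refine ⟨h2, fun y hy => h3.2 y ((DMLf_upL c hc).mp hy)⟩

/-- conditional informations given a condition without leak do not change -/
theorem I_upL_of_leak {A y z w : S.L} (hl : Nul S (fun k => (l k).leak (rp A k))) (hA : A ≤ w) :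
    I (l.upL c hc y) (l.upL c hc z) (l.upL c hc w) = I y z w / c := by
  rw [I_eq, I_eq, ← l.upL_sup, h_upL_of_leak c hc hl hA, h_upL_of_leak c hc hl (hA.trans le_sup_right), sub_div]

/-- entropies drop over a label -/
theorem h_upL_le (y z : S.L) : h (l.upL c hc y) (l.upL c hc z) ≤ h y z / c := by
  rw [l.hr_upL, ← hr_rp]
  apply div_le_div_of_nonneg_right _ hc.le
  refine ul_mono ?_ ((rp_Bd y).ub _) ?_
  · refine UB.sandwich (UB_const 0) ((rp_Bd y).ub (fun _ => ⊥)) ?_ ?_
    · exact Eventually.of_forall fun k => div_nonneg (h_nonneg _ _) (S.F k).pos.le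
    · refine Eventually.of_forall fun k => div_le_div_of_nonneg_right ?_ (S.F k).pos.le
      rw [h_bot, ← (l k).p.H_map]
      exact h_le_H _ _
  · refine Eventually.of_forall fun k => div_le_div_of_nonneg_right ?_ (S.F k).pos.le
    rw [← (l k).p.h_map]
    exact h_anti le_sup_left

theorem H_upL_le (y : S.L) : H (l.upL c hc y) ≤ H y / c := by
  have h1 := l.h_upL_le (c := c) (hc := hc) y ⊥
  rw [l.upL_bot, h_bot, h_bot] at h1
  exact h1

end Lab

end

end Pool.Agent.Helper40.EL
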