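import Pool.Agent.Helper40.EL.D4

/-! MULTI-TYPE LAYER (simultaneous types), part 1: Markov labels for a countable family of conditions, joins, maxima,
universality, common informations, canonical numbers, spaces over a maximal label. The case of two conditions is
`Lab.DM`. -/

namespace Pool.Agent.Helper40.EL

open Finset Filter Topology Pool.Agent.Helper69.RK Pool.Agent.Helper31.EC

noncomputable section

namespace Lab

variable {S : Sp} {ι ι' : Type}

/-- Markov labels of a family of conditions: no leak at every condition -/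
def DMf (l : Lab S) (A : ι → Part S) : Prop := ∀ i, Nul S (fun k => (l k).leak (A i k))

variable {l l' : Lab S} {A : ι → Part S}

theorem DMf.dm (h : l.DMf A) (i j : ι) : l.DM (A i) (A j) := ⟨h i, h j⟩

theorem DMf_pair {B C : Part S} : l.DMf ![B, C] ↔ l.DM B C := by
  constructor
  · intro h
    exact ⟨h 0, h 1⟩
  · rintro ⟨h1, h2⟩ i
    fin_cases i
    · exact h1
    · exact h2

theorem DM.dmf_bool {B C : Part S} (h : l.DM B C) : l.DMf (fun b : Bool => if b then B else C) := by
  intro b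
  cases b
  · exact h.2
  · exact h.1

theorem DMf.ub (h : l.DMf A) {i : ι} (hA : (A i).Bd) : UB (fun k => (l k).info / (S.F k).n) := (h.dm i i).ub hA

theorem DMf.info_le (h : l.DMf A) {i : ι} (hA : (A i).Bd) : l.info ≤ ul (fun k => H (A i k) / (S.F k).n) :=
  (h.dm i i).info_le hA

/-- more and coarser conditions give fewer labels -/
theorem DMf.mono {A' : ι' → Part S} (hl : l.DMf A) (h : ∀ i, ∃ j, PLe (A j) (A' i)) : l.DMf A' := by
  intro i
  obtain ⟨j, hj⟩ := h i
  exact ((hl.dm j j).mono hj hj).1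

theorem DMf.sub (hl : l.DMf A) (f : ι' → ι) : l.DMf (fun i => A (f i)) := fun i => hl (f i)

theorem DMf.join (h : l.DMf A) (h' : l'.DMf A) : (l.join l').DMf A := fun i => ((h.dm i i).join (h'.dm i i)).1

theorem DMf_triv (A : ι → Part S) : DMf (fun k => FLab.triv (S.F k)) A := fun i => (DM_triv (A i) (A i)).1

variable (l A)

/-- maximal Markov labels of a family -/
def IsMaxf : Prop := l.DMf A ∧ ∀ l' : Lab S, l'.DMf A → l'.info ≤ l.info

variable {l A}

theorem IsMaxf.congr {A' : ι' → Part S} (hl : l.IsMaxf A) (h : ∀ i, ∃ j, PLe (A j) (A' i))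
    (h' : ∀ i, ∃ j, PLe (A' j) (A i)) : l.IsMaxf A' :=
  ⟨hl.1.mono h, fun l' hl' => hl.2 l' (hl'.mono h')⟩

theorem IsMaxf_pair {B C : Part S} : l.IsMaxf ![B, C] ↔ l.IsMax B C := by
  constructor
  · intro h
    exact ⟨DMf_pair.mp h.1, fun l' hl' => h.2 l' (DMf_pair.mpr hl')⟩
  · intro h
    exact ⟨DMf_pair.mpr h.1, fun l' hl' => h.2 l' (DMf_pair.mp hl')⟩

/-- the information of `l'` about the space beyond `l` is null when the join has not more information -/
theorem univ_of_info (hj : (l.join l').info ≤ l.info) (hu1 : UB (fun k => ((l.join l') k).info / (S.F k).n))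
    (hu2 : UB (fun k => (l k).info / (S.F k).n)) :
    Nul S (fun k => I (((l k).am (l' k)).p2.map (l' k).v) (((l k).am (l' k)).p1.map (l k).p.top)
      (((l k).am (l' k)).p1.map (l k).v)) := by
  have h2 : (fun k => ((l.join l') k).info / (S.F k).n) = fun k => (l k).info / (S.F k).n +
      I (((l k).am (l' k)).p2.map (l' k).v) (((l k).am (l' k)).p1.map (l k).p.top)
        (((l k).am (l' k)).p1.map (l k).v) / (S.F k).n := by
    funext k
    rw [← add_div]
    exact congrArg (· / (S.F k).n) ((l k).join_info (l' k))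
  have hu3 : UB (fun k => I (((l k).am (l' k)).p2.map (l' k).v) (((l k).am (l' k)).p1.map (l k).p.top)
        (((l k).am (l' k)).p1.map (l k).v) / (S.F k).n) := by
    have h3 := hu1.sub hu2
    have h4 : (fun k => I (((l k).am (l' k)).p2.map (l' k).v) (((l k).am (l' k)).p1.map (l k).p.top)
        (((l k).am (l' k)).p1.map (l k).v) / (S.F k).n) = fun k => ((l.join l') k).info / (S.F k).n -
        (l k).info / (S.F k).n := by
      funext k
      rw [congrFun h2 k]; ring
    rw [h4]
    exact h3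
  rw [Nul_iff_ul (Eventually.of_forall fun k => I_nonneg _ _ _)]
  refine ⟨hu3, ?_⟩
  have h5 : (l.join l').info = l.info + ul (fun k => I (((l k).am (l' k)).p2.map (l' k).v)
      (((l k).am (l' k)).p1.map (l k).p.top) (((l k).am (l' k)).p1.map (l k).v) / (S.F k).n) := by
    unfold Lab.info
    rw [h2, ul_add hu2 hu3]
  linarith

/-- UNIVERSALITY of a maximal Markov label -/
theorem IsMaxf.univ (h : l.IsMaxf A) (h' : l'.DMf A) {i : ι} (hA : (A i).Bd) :
    Nul S (fun k => I (((l k).am (l' k)).p2.map (l' k).v) (((l k).am (l' k)).p1.map (l k).p.top)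
      (((l k).am (l' k)).p1.map (l k).v)) :=
  univ_of_info (h.2 _ (h.1.join h')) ((h.1.join h').ub hA) (h.1.ub hA)

/-- APPROXIMATE Markov labels converge to Markov labels (countably many conditions) -/
theorem approxf [Countable ι] {A : ι → Part S} {i₀ : ι} (hA : (A i₀).Bd) (l : ℕ → Lab S) (e : ℕ → ℝ)
    (he : Tendsto e atTop (𝓝 0)) (v : ℝ)
    (h1 : ∀ i, ∀ᶠ j in atTop, ∀ᶠ k in UF, (l j k).leak (A i k) / (S.F k).n ≤ e j)
    (h3 : ∀ j, ∀ᶠ k in UF, v - e j ≤ (l j k).info / (S.F k).n) : ∃ y : Lab S, y.DMf A ∧ v ≤ y.info := by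
  classical
  obtain ⟨c, hc⟩ := exists_injective_nat ι
  have hN : ∀ i, ∃ N, ∀ j, N ≤ j → ∀ᶠ k in UF, (l j k).leak (A i k) / (S.F k).n ≤ e j := by
    intro i
    exact eventually_atTop.mp (h1 i)
  choose N hN using hN
  have hfin : ∀ j : ℕ, {i : ι | c i ≤ j ∧ N i ≤ j}.Finite := by
    intro j
    apply Set.Finite.of_finite_image (f := c) _ hc.injOn
    apply (Set.finite_Iic j).subset
    rintro x ⟨i, hi, rfl⟩
    exact hi.1
  have hG : ∀ j, ∀ᶠ k in UF, (∀ i ∈ {i : ι | c i ≤ j ∧ N i ≤ j}, (l j k).leak (A i k) / (S.F k).n ≤ e j) ∧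
      v - e j ≤ (l j k).info / (S.F k).n := by
    intro j
    apply Filter.Eventually.and _ (h3 j)
    rw [Filter.eventually_all_finite (hfin j)]
    intro i hi
    exact hN i j hi.2
  obtain ⟨y, j, hj, hy, hG'⟩ := dia' (X := fun k => FLab (S.F k)) l (fun j k x =>
      (∀ i ∈ {i : ι | c i ≤ j ∧ N i ≤ j}, x.leak (A i k) / (S.F k).n ≤ e j) ∧
      v - e j ≤ x.info / (S.F k).n) hG
  have h0 : Tendsto (fun k => e (j k)) UF (𝓝 0) := he.comp hj
  have hDM : Lab.DMf y A := by
    intro i
    refine tendsto_of_tendsto_of_tendsto_of_le_of_le' tendsto_const_nhds h0 ?_ ?_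
    · exact Eventually.of_forall fun k => div_nonneg ((y k).leak_nonneg _) (S.F k).pos.le
    · filter_upwards [hG', hj.eventually (eventually_ge_atTop (c i)), hj.eventually (eventually_ge_atTop (N i))]
        with k hk h5 h6 using hk.1 i ⟨h5, h6⟩
  refine ⟨y, hDM, ?_⟩
  have h4 : Tendsto (fun k => v - e (j k)) UF (𝓝 v) := by
    have := h0.const_sub v
    rwa [sub_zero] at this
  exact le_of_tendsto_of_tendsto h4 (ul_tendsto (hDM.ub hA)) (by filter_upwards [hG'] with k hk using hk.2)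

/-- MAXIMAL Markov labels exist -/
theorem exists_maxf [Countable ι] (A : ι → Part S) {i₀ : ι} (hA : (A i₀).Bd) : ∃ l : Lab S, l.IsMaxf A := by
  set I0 : Set ℝ := {x | ∃ l : Lab S, l.DMf A ∧ x = l.info} with hI0
  have hbd : BddAbove I0 := by
    refine ⟨ul (fun k => H (A i₀ k) / (S.F k).n), ?_⟩
    rintro x ⟨l, hl, rfl⟩
    exact hl.info_le hA
  have hne : I0.Nonempty := ⟨_, _, DMf_triv A, rfl⟩
  have h1 : ∀ j : ℕ, ∃ l : Lab S, l.DMf A ∧ sSup I0 - 1 / ((j : ℝ) + 1) < l.info := by
    intro j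
    have h2 : sSup I0 - 1 / ((j : ℝ) + 1) < sSup I0 := by
      have : (0 : ℝ) < 1 / ((j : ℝ) + 1) := by positivity
      linarith
    obtain ⟨x, ⟨l, hl, rfl⟩, hx⟩ := exists_lt_of_lt_csSup hne h2
    exact ⟨l, hl, hx⟩
  choose l hl hi using h1
  obtain ⟨y, hy, hyi⟩ := approxf hA l (fun j => 1 / ((j : ℝ) + 1)) tendsto_one_div_add_atTop_nhds_zero_nat
    (sSup I0) (by
      intro i
      refine Eventually.of_forall fun j => ?_
      have h5 : (0 : ℝ) < 1 / ((j : ℝ) + 1) := by positivity
      filter_upwards [(hl j i).eventually (gt_mem_nhds h5)] with k hk using hk.le) (by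
      intro j
      filter_upwards [eventually_gt_of_lt_ul ((hl j).ub hA) (hi j)] with k hk using hk.le)
  refine ⟨y, hy, ?_⟩
  intro l' hl'
  exact (le_csSup hbd ⟨l', hl', rfl⟩).trans hyi

/-! ### spaces over labels -/

variable (c : ℝ) (hc : 0 < c)

variable {c hc}

theorem DMf.comp (h : l.DMf A) {l2 : Lab (l.ovr c hc)} (h2 : l2.DMf (fun i => l.up c hc (A i))) :
    (l.comp c hc l2).DMf A := fun i => ((h.dm i i).comp (h2.dm i i)).1

/-- the information of a label over a label which does not leak is the difference -/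
theorem info_comp (hl : UB (fun k => (l k).info / (S.F k).n)) {l2 : Lab (l.ovr c hc)} {B : Part S}
    (hv : UB (fun k => ((l.comp c hc l2) k).info / (S.F k).n))
    (h2 : Nul (l.ovr c hc) (fun k => (l2 k).leak (l.up c hc B k))) :
    l2.info = ((l.comp c hc l2).info - l.info) / c ∧
      Tendsto (fun k => (l2 k).info / (S.F k).n) UF (𝓝 ((l.comp c hc l2).info - l.info)) := by
  have t1 : Tendsto (fun k => (((l.comp c hc l2) k).info / (S.F k).n - (l k).info / (S.F k).n)) UF
      (𝓝 ((l.comp c hc l2).info - l.info)) := (ul_tendsto hv).sub (ul_tendsto hl)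
  have t2 : Tendsto (fun k => (((l.comp c hc l2) k).info / (S.F k).n - (l k).info / (S.F k).n) +
      (l2 k).leak (l.up c hc B k) / (S.F k).n) UF (𝓝 ((l.comp c hc l2).info - l.info)) := by
    have := t1.add ((nul_over l c hc).mp h2)
    rwa [add_zero] at this
  have b1 : ∀ k, ((l.comp c hc l2) k).info / (S.F k).n - (l k).info / (S.F k).n ≤ (l2 k).info / (S.F k).n := by
    intro k
    rw [← sub_div]
    exact div_le_div_of_nonneg_right ((l k).comp_info_le c hc (l2 k)) (S.F k).pos.le
  have b2 : ∀ k, (l2 k).info / (S.F k).n ≤ (((l.comp c hc l2) k).info / (S.F k).n - (l k).info / (S.F k).n) +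
      (l2 k).leak (l.up c hc B k) / (S.F k).n := by
    intro k
    rw [← sub_div, ← add_div]
    exact div_le_div_of_nonneg_right ((l k).info_over_le c hc (l2 k) (B k)) (S.F k).pos.le
  have t3 : Tendsto (fun k => (l2 k).info / (S.F k).n) UF (𝓝 ((l.comp c hc l2).info - l.info)) :=
    tendsto_of_tendsto_of_tendsto_of_le_of_le t1 t2 b1 b2
  refine ⟨?_, t3⟩
  have e : (fun k => (l2 k).info / ((l.ovr c hc).F k).n) = fun k => c⁻¹ * ((l2 k).info / (S.F k).n) := by
    funext k
    rw [n_over, mul_comm c, ← div_div, div_eq_inv_mul]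
  show ul (fun k => (l2 k).info / ((l.ovr c hc).F k).n) = _
  rw [e, ul_eq (t3.const_mul c⁻¹), div_eq_inv_mul]

/-- TRIVIALITY over a maximal Markov label -/
theorem IsMaxf.triv (h : l.IsMaxf A) {i₀ : ι} (hA : (A i₀).Bd) (l2 : Lab (l.ovr c hc))
    (h2 : l2.DMf (fun i => l.up c hc (A i))) : Nul S (fun k => (l2 k).info) := by
  obtain ⟨_, t3⟩ := info_comp (h.1.ub hA) ((h.1.comp h2).ub hA) (h2 i₀)
  have h1 := h.2 _ (h.1.comp h2)
  have h0 : ∀ k, 0 ≤ (l2 k).info / (S.F k).n := fun k => div_nonneg (FLab.info_nonneg _) (S.F k).pos.le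
  have h5 : 0 ≤ (l.comp c hc l2).info - l.info := ge_of_tendsto t3 (Eventually.of_forall h0)
  have h6 : (l.comp c hc l2).info - l.info = 0 := le_antisymm (by linarith) h5
  rw [h6] at t3
  exact t3

/-- maximality in the space over a label -/
theorem IsMaxf.ovr {l2 : Lab (l.ovr c hc)} (h : (l.comp c hc l2).IsMaxf A) (hl : l.DMf A)
    (h2 : l2.DMf (fun i => l.up c hc (A i))) {i₀ : ι} (hA : (A i₀).Bd) : l2.IsMaxf (fun i => l.up c hc (A i)) := by
  refine ⟨h2, ?_⟩
  intro l3 h3
  have h4 := h.2 _ (hl.comp h3)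
  rw [(info_comp (hl.ub hA) ((hl.comp h2).ub hA) (h2 i₀)).1, (info_comp (hl.ub hA) ((hl.comp h3).ub hA) (h3 i₀)).1]
  apply div_le_div_of_nonneg_right _ hc.le
  linarith

/-- a maximal label over a Markov label gives a maximal label -/
theorem IsMaxf.comp [Countable ι] {l2 : Lab (l.ovr c hc)} (hl : l.DMf A) (h2 : l2.IsMaxf (fun i => l.up c hc (A i)))
    {i₀ : ι} (hA : (A i₀).Bd) (h : ∀ y : Lab S, y.DMf A → ∃ l3 : Lab (l.ovr c hc),
      l3.DMf (fun i => l.up c hc (A i)) ∧ y.info ≤ (l.comp c hc l3).info) : (l.comp c hc l2).IsMaxf A := by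
  refine ⟨hl.comp h2.1, fun y hy => ?_⟩
  obtain ⟨l3, h3, h4⟩ := h y hy
  have h5 := h2.2 l3 h3
  rw [(info_comp (hl.ub hA) ((hl.comp h2.1).ub hA) (h2.1 i₀)).1,
    (info_comp (hl.ub hA) ((hl.comp h3).ub hA) (h3 i₀)).1] at h5
  have h6 : (l.comp c hc l3).info - l.info ≤ (l.comp c hc l2).info - l.info := by
    by_contra hcon
    push Not at hcon
    have := div_lt_div_of_pos_right hcon hc
    linarith
  linarith

end Lab

end

end Pool.Agent.Helper40.EL
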