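import Pool.Agent.Helper56.MT.M3
import Pool.Agent.Helper52.KP.ExtI

/-! MULTI-TYPE LAYER, part 4 (finite level): several conditionally independent amalgams over one space (adding
types), and the agreement lemma: if the values of two different types agree, then they are functions of the
conditions. -/

namespace Pool.Agent.Helper56.MT

open Finset Filter Topology Pool.Agent.Helper69.RK Pool.Agent.Helper31.EC Pool.Agent.Helper40.EL

noncomputable section

/-- data of several amalgams over one space -/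
structure MAm (F : FSp) (ι : Type) where
  W : ι → FSp
  D : ∀ i, FAm (W i) F

namespace MAm

variable {F : FSp} {ι : Type} [Fintype ι] [DecidableEq ι] (M : MAm F ι)

/-- the kernel of the type `i` at a value of the common variable -/
def kr (i : ι) (a : (M.D i).α) (y : (M.W i).Ω) : ℝ :=
  e1_ind ((M.D i).f y = a) * ((M.W i).μ y / ms F.μ (M.D i).g a)

omit [Fintype ι] [DecidableEq ι] in
theorem kr_nonneg (i : ι) (a : (M.D i).α) (y : (M.W i).Ω) : 0 ≤ M.kr i a y :=
  mul_nonneg (ind_nonneg _) (div_nonneg ((M.W i).nn y) (ms_nonneg _ _ F.nn _))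

omit [Fintype ι] [DecidableEq ι] in
theorem kr_sum (i : ι) (ω : F.Ω) (h : F.μ ω ≠ 0) : ∑ y, M.kr i ((M.D i).g ω) y = 1 := by
  have h1 : ∑ y, M.kr i ((M.D i).g ω) y =
      (∑ y, e1_ind ((M.D i).f y = (M.D i).g ω) * (M.W i).μ y) / ms F.μ (M.D i).g ((M.D i).g ω) := by
    rw [Finset.sum_div]
    apply Finset.sum_congr rfl
    intro y _
    unfold kr
    ring
  have h2 : ∑ y, e1_ind ((M.D i).f y = (M.D i).g ω) * (M.W i).μ y = ms (M.W i).μ (M.D i).f ((M.D i).g ω) := rfl
  rw [h1, h2, (M.D i).law, div_self]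
  exact (ms_pos F.μ (M.D i).g F.nn ω h).ne'

omit [Fintype ι] [DecidableEq ι] in
theorem kr_sum_le (i : ι) (ω : F.Ω) (h : F.μ ω ≠ 0) (p : (M.W i).Ω → Prop) :
    ∑ y, M.kr i ((M.D i).g ω) y * e1_ind (p y) ≤ 1 := by
  rw [← M.kr_sum i ω h]
  apply Finset.sum_le_sum
  intro y _
  have h1 := M.kr_nonneg i ((M.D i).g ω) y
  by_cases hp : p y
  · rw [e1_ind_pos hp, mul_one]
  · rw [e1_ind_neg hp, mul_zero]
    exact h1

/-- the weights -/
def mw (w : F.Ω × (∀ i, (M.W i).Ω)) : ℝ := F.μ w.1 * ∏ i, M.kr i ((M.D i).g w.1) (w.2 i)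

omit [DecidableEq ι] in
theorem mw_nonneg (w : F.Ω × (∀ i, (M.W i).Ω)) : 0 ≤ M.mw w :=
  mul_nonneg (F.nn _) (Finset.prod_nonneg fun i _ => M.kr_nonneg i _ _)

/-- the product formula -/
theorem mw_sum (ψ : F.Ω → ℝ) (φ : ∀ i, (M.W i).Ω → ℝ) :
    ∑ w, M.mw w * (ψ w.1 * ∏ i, φ i (w.2 i)) =
      ∑ ω, F.μ ω * (ψ ω * ∏ i, ∑ y, M.kr i ((M.D i).g ω) y * φ i y) := by
  rw [Fintype.sum_prod_type]
  apply Finset.sum_congr rfl
  intro ω _
  have h1 : ∏ i, ∑ y, M.kr i ((M.D i).g ω) y * φ i y =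
      ∑ y : ∀ i, (M.W i).Ω, ∏ i, (M.kr i ((M.D i).g ω) (y i) * φ i (y i)) := by
    rw [Finset.prod_univ_sum, Fintype.piFinset_univ]
  rw [h1, Finset.mul_sum, Finset.mul_sum]
  apply Finset.sum_congr rfl
  intro y _
  unfold mw
  rw [Finset.prod_mul_distrib]
  ring

/-- the product formula for one type -/
theorem mw_sum_one (i : ι) (ψ : F.Ω → ℝ) (φ : (M.W i).Ω → ℝ) :
    ∑ w, M.mw w * (ψ w.1 * φ (w.2 i)) = ∑ ω, F.μ ω * (ψ ω * ∑ y, M.kr i ((M.D i).g ω) y * φ y) := by
  have h1 := M.mw_sum ψ (fun j => if h : j = i then fun y => φ (h ▸ y) else fun _ => 1)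
  have h2 : ∀ w : F.Ω × (∀ i, (M.W i).Ω), (∏ j, (if h : j = i then fun y : (M.W j).Ω => φ (h ▸ y)
      else fun _ => 1) (w.2 j)) = φ (w.2 i) := by
    intro w
    rw [Finset.prod_eq_single i]
    · rw [dif_pos rfl]
    · intro j _ hj
      rw [dif_neg hj]
    · intro h
      exact absurd (Finset.mem_univ _) h
  have h3 : ∀ ω, F.μ ω * (ψ ω * ∏ j, ∑ y, M.kr j ((M.D j).g ω) y * (if h : j = i then fun y : (M.W j).Ω => φ (h ▸ y)
      else fun _ => 1) y) = F.μ ω * (ψ ω * ∑ y, M.kr i ((M.D i).g ω) y * φ y) := by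
    intro ω
    by_cases hω : F.μ ω = 0
    · rw [hω, zero_mul, zero_mul]
    · rw [Finset.prod_eq_single i]
      · rw [dif_pos rfl]
      · intro j _ hj
        rw [dif_neg hj]
        simp only [mul_one]
        exact M.kr_sum j ω hω
      · intro h
        exact absurd (Finset.mem_univ _) h
  rw [Finset.sum_congr rfl (fun ω _ => h3 ω)] at h1
  rw [← h1]
  apply Finset.sum_congr rfl
  intro w _
  rw [h2]

/-- the product formula for two types -/
theorem mw_sum_two (i j : ι) (hij : i ≠ j) (ψ : F.Ω → ℝ) (φ : (M.W i).Ω → ℝ) (χ : (M.W j).Ω → ℝ) :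
    ∑ w, M.mw w * (ψ w.1 * (φ (w.2 i) * χ (w.2 j))) =
      ∑ ω, F.μ ω * (ψ ω * ((∑ y, M.kr i ((M.D i).g ω) y * φ y) * ∑ y, M.kr j ((M.D j).g ω) y * χ y)) := by
  have h1 := M.mw_sum ψ (fun l => if h : l = i then fun y => φ (h ▸ y) else
    if h : l = j then fun y => χ (h ▸ y) else fun _ => 1)
  have h2 : ∀ w : F.Ω × (∀ i, (M.W i).Ω), (∏ l, (if h : l = i then fun y : (M.W l).Ω => φ (h ▸ y) else
      if h : l = j then fun y => χ (h ▸ y) else fun _ => 1) (w.2 l)) = φ (w.2 i) * χ (w.2 j) := by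
    intro w
    rw [← Finset.mul_prod_erase _ _ (Finset.mem_univ i), dif_pos rfl, Finset.prod_eq_single j]
    · rw [dif_neg (fun h => hij h.symm), dif_pos rfl]
    · intro l hl hlj
      rw [dif_neg (Finset.ne_of_mem_erase hl), dif_neg hlj]
    · intro h
      exact absurd (Finset.mem_erase.mpr ⟨fun h => hij h.symm, Finset.mem_univ _⟩) h
  have h3 : ∀ ω, F.μ ω * (ψ ω * ∏ l, ∑ y, M.kr l ((M.D l).g ω) y * (if h : l = i then fun y : (M.W l).Ω => φ (h ▸ y)
      else if h : l = j then fun y => χ (h ▸ y) else fun _ => 1) y) =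
      F.μ ω * (ψ ω * ((∑ y, M.kr i ((M.D i).g ω) y * φ y) * ∑ y, M.kr j ((M.D j).g ω) y * χ y)) := by
    intro ω
    by_cases hω : F.μ ω = 0
    · rw [hω, zero_mul, zero_mul]
    · rw [← Finset.mul_prod_erase _ _ (Finset.mem_univ i), dif_pos rfl, Finset.prod_eq_single j]
      · rw [dif_neg (fun h => hij h.symm), dif_pos rfl]
      · intro l hl hlj
        rw [dif_neg (Finset.ne_of_mem_erase hl), dif_neg hlj]
        simp only [mul_one]
        exact M.kr_sum l ω hω
      · intro h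
        exact absurd (Finset.mem_erase.mpr ⟨fun h => hij h.symm, Finset.mem_univ _⟩) h
  rw [Finset.sum_congr rfl (fun ω _ => h3 ω)] at h1
  rw [← h1]
  apply Finset.sum_congr rfl
  intro w _
  rw [h2]

/-- marginal of the space -/
theorem mw_fst : push Prod.fst M.mw = F.μ := by
  funext ω₀
  rw [push_ind]
  have h1 := M.mw_sum (fun ω => e1_ind (ω = ω₀)) (fun _ _ => 1)
  simp only [Finset.prod_const_one, mul_one] at h1
  have h2 : ∀ w : F.Ω × (∀ i, (M.W i).Ω), e1_ind (w.1 = ω₀) * M.mw w = M.mw w * e1_ind (w.1 = ω₀) :=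
    fun w => mul_comm _ _
  rw [Finset.sum_congr rfl (fun w _ => h2 w), h1, Finset.sum_eq_single ω₀]
  · by_cases hω : F.μ ω₀ = 0
    · rw [hω, zero_mul]
    · rw [e1_ind_pos rfl, Finset.prod_congr rfl (fun i _ => M.kr_sum i ω₀ hω), Finset.prod_const_one, mul_one,
        mul_one]
  · intro b _ hb
    rw [e1_ind_neg hb, zero_mul, mul_zero]
  · intro h
    exact absurd (Finset.mem_univ _) h

/-- marginal of one type and the space -/
theorem mw_pair (i : ι) : push (fun w : F.Ω × (∀ i, (M.W i).Ω) => (w.2 i, w.1)) M.mw =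
    amw (M.W i).μ F.μ (M.D i).f (M.D i).g := by
  funext v
  rw [push_ind]
  have h2 : ∀ w : F.Ω × (∀ i, (M.W i).Ω), e1_ind ((w.2 i, w.1) = v) * M.mw w =
      M.mw w * (e1_ind (w.1 = v.2) * e1_ind (w.2 i = v.1)) := by
    intro w
    rw [← ind_and, ind_congr (show ((w.2 i, w.1) = v) ↔ (w.1 = v.2 ∧ w.2 i = v.1) from by
      rw [Prod.ext_iff]; exact and_comm)]
    ring
  rw [Finset.sum_congr rfl (fun w _ => h2 w), M.mw_sum_one i (fun ω => e1_ind (ω = v.2)) (fun y => e1_ind (y = v.1)),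
    Finset.sum_eq_single v.2]
  · rw [e1_ind_pos rfl, one_mul, Finset.sum_eq_single v.1]
    · rw [e1_ind_pos rfl, mul_one]
      unfold kr amw
      by_cases h : (M.D i).f v.1 = (M.D i).g v.2
      · rw [e1_ind_pos h, (M.D i).law, ← h]
        ring
      · rw [e1_ind_neg h]; ring
    · intro b _ hb
      rw [e1_ind_neg hb, mul_zero]
    · intro h
      exact absurd (Finset.mem_univ _) h
  · intro b _ hb
    rw [e1_ind_neg hb, zero_mul, mul_zero]
  · intro h
    exact absurd (Finset.mem_univ _) h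

/-- the space with all types -/
def sp : FSp where
  Ω := F.Ω × (∀ i, (M.W i).Ω)
  ft := inferInstance
  μ := M.mw
  nn := M.mw_nonneg
  ms := by
    have h1 : ∑ w, M.mw w = ∑ ω, push Prod.fst M.mw ω := by
      have h2 : ∀ ω, push Prod.fst M.mw ω = ∑ w, e1_ind (w.1 = ω) * M.mw w := fun ω => push_ind _ _ _
      rw [Finset.sum_congr rfl (fun ω _ => h2 ω), Finset.sum_comm]
      apply Finset.sum_congr rfl
      intro w _
      rw [← Finset.sum_mul, Finset.sum_eq_single w.1]
      · rw [e1_ind_pos rfl, one_mul]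
      · intro b _ hb
        rw [e1_ind_neg (fun h => hb h.symm)]
      · intro h
        exact absurd (Finset.mem_univ _) h
    show ∑ w, M.mw w = 1
    rw [h1, M.mw_fst]
    exact F.ms
  Z := Setoid.comap Prod.fst F.Z
  n := F.n
  pos := F.pos

/-- the projection to the space -/
def p0 : FPj M.sp F where
  π := fun w => w.1
  law := M.mw_fst
  hZ := fun _ _ _ _ => Iff.rfl

theorem supp (w : M.sp.Ω) (h : M.sp.μ w ≠ 0) (i : ι) :
    (M.D i).f (w.2 i) = (M.D i).g w.1 ∧ (M.W i).μ (w.2 i) ≠ 0 ∧ F.μ w.1 ≠ 0 := by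
  have h1 : F.μ w.1 * ∏ i, M.kr i ((M.D i).g w.1) (w.2 i) ≠ 0 := h
  have h2 := left_ne_zero_of_mul h1
  have h3 := right_ne_zero_of_mul h1
  have h4 : M.kr i ((M.D i).g w.1) (w.2 i) ≠ 0 := Finset.prod_ne_zero_iff.mp h3 i (Finset.mem_univ i)
  unfold kr at h4
  refine ⟨?_, ?_, h2⟩
  · by_contra h5
    rw [e1_ind_neg h5, zero_mul] at h4
    exact h4 rfl
  · intro h5
    rw [h5, zero_div, mul_zero] at h4
    exact h4 rfl

/-- the projection to the amalgam of one type -/
def pi (i : ι) : FPj M.sp (M.D i).sp where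
  π := fun w => (w.2 i, w.1)
  law := M.mw_pair i
  hZ := by
    intro w w' h h'
    obtain ⟨a1, a2, a3⟩ := M.supp w h i
    obtain ⟨b1, b2, b3⟩ := M.supp w' h' i
    show F.Z w.1 w'.1 ↔ (M.W i).Z (w.2 i) (w'.2 i)
    rw [(M.D i).hZ2 _ _ a3 b3, ← a1, ← b1]
    exact ((M.D i).hZ1 _ _ a2 b2).symm

theorem pi_p0 (i : ι) (x : FL F) : (M.pi i).map ((M.D i).p2.map x) = M.p0.map x := by
  induction x using fc_ind
  rfl

/-! ### the agreement lemma -/

section agree
variable {β : Type} (X : ∀ i, (M.W i).Ω → β)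

/-- the law of the value of the type `i` -/
def nu (i : ι) (a : (M.D i).α) (c : β) : ℝ := ∑ y, M.kr i a y * e1_ind (X i y = c)

omit [Fintype ι] [DecidableEq ι] in
theorem nu_nonneg (i : ι) (a : (M.D i).α) (c : β) : 0 ≤ M.nu X i a c :=
  Finset.sum_nonneg fun y _ => mul_nonneg (M.kr_nonneg i a y) (ind_nonneg _)

/-- a point of maximum, as a function of the function -/
def amax [Nonempty β] (N : β → ℝ) : β :=
  open Classical in if h : ∃ c, ∀ c', N c' ≤ N c then h.choose else Classical.arbitrary β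

omit [Fintype ι] [DecidableEq ι] in
theorem nu_amax [Nonempty β] (i : ι) (a : (M.D i).α) (c : β) : M.nu X i a c ≤ M.nu X i a (amax (M.nu X i a)) := by
  classical
  have hex : ∃ c, ∀ c', M.nu X i a c' ≤ M.nu X i a c := by
    have hne : (Finset.univ.image (X i)).Nonempty := by
      have h1 : (Finset.univ : Finset (M.W i).Ω).Nonempty := by
        by_contra h2
        rw [Finset.not_nonempty_iff_eq_empty] at h2
        have h3 : ∑ y, (M.W i).μ y = 1 := (M.W i).ms
        rw [h2, Finset.sum_empty] at h3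
        exact zero_ne_one h3
      exact h1.image _
    obtain ⟨c, hc, hmax⟩ := Finset.exists_max_image (Finset.univ.image (X i)) (M.nu X i a) hne
    refine ⟨c, fun c' => ?_⟩
    by_cases h' : c' ∈ Finset.univ.image (X i)
    · exact hmax c' h'
    · have h0 : M.nu X i a c' = 0 := by
        apply Finset.sum_eq_zero
        intro y _
        rw [e1_ind_neg, mul_zero]
        intro h
        exact h' (Finset.mem_image.mpr ⟨y, Finset.mem_univ _, h⟩)
      rw [h0]
      exact M.nu_nonneg X i a c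
  have h4 : amax (M.nu X i a) = hex.choose := by
    unfold amax
    rw [dif_pos hex]
  rw [h4]
  exact hex.choose_spec c

theorem pb_ind (F : FSp) (E : F.Ω → Prop) : F.pb E = ∑ ω, F.μ ω * e1_ind (E ω) := by
  show ∑ ω, res F.μ E ω = _
  apply Finset.sum_congr rfl
  intro ω _
  by_cases h : E ω
  · rw [res_pos _ _ _ h, e1_ind_pos h, mul_one]
  · rw [res_neg _ _ _ h, e1_ind_neg h, mul_zero]

/-- AGREEMENT: the values of two different types agree only if the value is a function of the condition -/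
theorem agree [Nonempty β] (i j : ι) (hij : i ≠ j) :
    M.sp.pb (fun w => X i (w.2 i) = X j (w.2 j)) ≤
      M.sp.pb (fun w => X i (w.2 i) = amax (M.nu X i ((M.D i).g w.1))) := by
  classical
  rw [pb_ind, pb_ind]
  -- the left side
  have h1 : ∀ w : M.sp.Ω, M.sp.μ w * e1_ind (X i (w.2 i) = X j (w.2 j)) =
      ∑ c ∈ Finset.univ.image (X j), M.mw w * (1 * (e1_ind (X i (w.2 i) = c) * e1_ind (X j (w.2 j) = c))) := by
    intro w
    rw [← Finset.mul_sum]
    congr 1
    rw [Finset.sum_eq_single (X j (w.2 j))]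
    · rw [e1_ind_pos (show X j (w.2 j) = X j (w.2 j) from rfl), mul_one, one_mul]
    · intro c _ hc
      rw [e1_ind_neg (show ¬ X j (w.2 j) = c from fun h => hc h.symm), mul_zero, mul_zero]
    · intro h
      exact absurd (Finset.mem_image.mpr ⟨w.2 j, Finset.mem_univ _, rfl⟩) h
  rw [Finset.sum_congr rfl (fun w _ => h1 w), Finset.sum_comm]
  have h2 : ∀ c ∈ Finset.univ.image (X j),
      ∑ w : M.sp.Ω, M.mw w * (1 * (e1_ind (X i (w.2 i) = c) * e1_ind (X j (w.2 j) = c))) =
      ∑ ω, F.μ ω * (M.nu X i ((M.D i).g ω) c * M.nu X j ((M.D j).g ω) c) := by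
    intro c _
    have h3 := M.mw_sum_two i j hij (fun _ => 1) (fun y => e1_ind (X i y = c)) (fun y => e1_ind (X j y = c))
    refine Eq.trans h3 ?_
    apply Finset.sum_congr rfl
    intro ω _
    rw [one_mul]
    rfl
  rw [Finset.sum_congr rfl h2, Finset.sum_comm]
  -- the right side
  have h4 : ∑ w : M.sp.Ω, M.sp.μ w * e1_ind (X i (w.2 i) = amax (M.nu X i ((M.D i).g w.1))) =
      ∑ ω, F.μ ω * M.nu X i ((M.D i).g ω) (amax (M.nu X i ((M.D i).g ω))) := by
    have h5 : ∀ w : M.sp.Ω, M.sp.μ w * e1_ind (X i (w.2 i) = amax (M.nu X i ((M.D i).g w.1))) =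
        ∑ ω, M.mw w * (e1_ind (w.1 = ω) * e1_ind (X i (w.2 i) = amax (M.nu X i ((M.D i).g ω)))) := by
      intro w
      rw [← Finset.mul_sum]
      congr 1
      rw [Finset.sum_eq_single w.1]
      · rw [e1_ind_pos (show w.1 = w.1 from rfl), one_mul]
      · intro b _ hb
        rw [e1_ind_neg (show ¬ w.1 = b from fun h => hb h.symm), zero_mul]
      · intro h
        exact absurd (Finset.mem_univ _) h
    rw [Finset.sum_congr rfl (fun w _ => h5 w), Finset.sum_comm]
    apply Finset.sum_congr rfl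
    intro ω _
    have h6 := M.mw_sum_one i (fun ω' => e1_ind (ω' = ω)) (fun y => e1_ind (X i y = amax (M.nu X i ((M.D i).g ω))))
    refine Eq.trans h6 ?_
    rw [Finset.sum_eq_single ω]
    · rw [e1_ind_pos rfl, one_mul]
      rfl
    · intro b _ hb
      rw [e1_ind_neg hb, zero_mul, mul_zero]
    · intro h
      exact absurd (Finset.mem_univ _) h
  rw [h4]
  apply Finset.sum_le_sum
  intro ω _
  by_cases hω : F.μ ω = 0
  · rw [hω]
    simp
  · rw [← Finset.mul_sum]
    apply mul_le_mul_of_nonneg_left _ (F.nn ω)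
    have h7 : ∑ c ∈ Finset.univ.image (X j), M.nu X i ((M.D i).g ω) c * M.nu X j ((M.D j).g ω) c ≤
        ∑ c ∈ Finset.univ.image (X j), M.nu X i ((M.D i).g ω) (amax (M.nu X i ((M.D i).g ω))) *
          M.nu X j ((M.D j).g ω) c := by
      apply Finset.sum_le_sum
      intro c _
      exact mul_le_mul_of_nonneg_right (M.nu_amax X i _ c) (M.nu_nonneg X j _ c)
    refine h7.trans ?_
    rw [← Finset.mul_sum]
    have h8 : ∑ c ∈ Finset.univ.image (X j), M.nu X j ((M.D j).g ω) c = 1 := by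
      unfold nu
      rw [Finset.sum_comm, ← M.kr_sum j ω hω]
      apply Finset.sum_congr rfl
      intro y _
      rw [← Finset.mul_sum, Finset.sum_eq_single (X j y)]
      · rw [e1_ind_pos rfl, mul_one]
      · intro c _ hc
        rw [e1_ind_neg (fun h => hc h.symm)]
      · intro h
        exact absurd (Finset.mem_image.mpr ⟨y, Finset.mem_univ _, rfl⟩) h
    rw [h8, mul_one]

end agree

end MAm

end

end Pool.Agent.Helper56.MT
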