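import Pool.Agent.Helper56.MT.M4
import Pool.Agent.Helper31.EC.DensS

/-! MULTI-TYPE LAYER, part 5: connected families, adding types (29e (ADD), NSL (2)), the agreement lemma for spaces
(29e NSL (3)). -/

namespace Pool.Agent.Helper40.EL

open Finset Filter Topology Pool.Agent.Helper69.RK Pool.Agent.Helper31.EC

noncomputable section

namespace Lab

variable {S : Sp} {ι ι' : Type}

/-- CONNECTED families: every Markov label is trivial -/
def Conn (A : ι → Part S) : Prop := ∀ l : Lab S, l.DMf A → Nul S (fun k => (l k).info)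

theorem Conn.info_le {A : ι → Part S} (hA : Conn A) (l : Lab S) (hl : l.DMf A) : l.info ≤ 0 := by
  have h1 := ul_eq (hA l hl)
  exact h1.le

theorem Conn_of {A : ι → Part S} {i₀ : ι} (hb : (A i₀).Bd) (h : ∀ l : Lab S, l.DMf A → l.info ≤ 0) : Conn A := by
  intro l hl
  have h0 : ∀ᶠ k in UF, 0 ≤ (fun k => (l k).info) k := Eventually.of_forall fun k => FLab.info_nonneg (l k)
  exact (Nul_iff_ul h0).mpr ⟨hl.ub hb, h l hl⟩

/-- connected families mix over words -/
theorem Conn.mix [Countable ι] {A : ι → Part S} (hA : Conn A) {i₀ : ι} (hb : (A i₀).Bd) {l : Lab S}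
    (hl : UB (fun k => (l k).info / (S.F k).n)) (ε : ℝ) (hε : 0 < ε) : ∃ w : List ι, (wk A l w).info < ε :=
  mixf hb (fun y hy => hA.info_le y hy) hl ε hε

/-- the space over a maximal Markov label is connected -/
theorem IsMaxf.conn {A : ι → Part S} {l : Lab S} (h : l.IsMaxf A) {i₀ : ι} (hA : (A i₀).Bd) {c : ℝ} {hc : 0 < c} :
    Conn (fun i => l.up c hc (A i)) := by
  intro l2 h2
  exact (nul_over l c hc).mpr (h.triv hA l2 h2)

/-- labels of extensions are labels of the space -/
theorem DMf.downP {T : Sp} (p : Pj T S) {A : ι → Part S} {A' : ι' → Part T} {l : Lab T} (h : l.DMf A')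
    (hA : ∀ i, ∃ j, PLe (A' j) ((A i).pull p)) : (l.down p).DMf A := by
  intro i
  obtain ⟨j, hj⟩ := hA i
  have h1 : Nul T (fun k => (l k).leak ((A i).pull p k)) := by
    apply ((h j).add hj).of_le (Eventually.of_forall fun k => FLab.leak_nonneg _ _)
    exact Eventually.of_forall fun k => (l k).leak_le_leak ((A i).pull p k) (A' j k)
  apply ((nul_pj p).mp h1).of_le (Eventually.of_forall fun k => FLab.leak_nonneg _ _)
  exact Eventually.of_forall fun k => FLab.down_leak (p.fp k) (p.hn k) (l k) (A i k)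

theorem DMf.upP {T : Sp} (p : Pj T S) {A : ι → Part S} {l : Lab S} (h : l.DMf A) :
    (l.up' p).DMf (fun i => (A i).pull p) := by
  intro i
  exact (DM.up' p (h.dm i i)).1

/-- (ADD): ADDING TYPES KEEPS CONNECTEDNESS. An extension of a connected space with more conditions, one of them a
function of the old space, is connected. -/
theorem Conn.add {T : Sp} (p : Pj T S) {A : ι → Part S} {A' : ι' → Part T} (hc : Conn A)
    (hA : ∀ i, ∃ j, PLe (A' j) ((A i).pull p)) (h0 : ∃ (j : ι') (B : Part S), PLe (A' j) (B.pull p)) : Conn A' := by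
  intro l hl
  have h1 := hc _ (hl.downP p hA)
  obtain ⟨j, B, hB⟩ := h0
  have h2 : Nul T (fun k => (l k).leak (B.pull p k)) := by
    apply ((hl j).add hB).of_le (Eventually.of_forall fun k => FLab.leak_nonneg _ _)
    exact Eventually.of_forall fun k => (l k).leak_le_leak (B.pull p k) (A' j k)
  apply (((nul_pj p).mpr h1).add h2).of_le (Eventually.of_forall fun k => FLab.info_nonneg _)
  exact Eventually.of_forall fun k => FLab.down_info (p.fp k) (p.hn k) (l k) (B k)

/-- informations of labels under (ADD): for every Markov label of the extension the label of the space has the same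
information -/
theorem DMf.info_downP {T : Sp} (p : Pj T S) {A' : ι' → Part T} {l : Lab T} (hl : l.DMf A') {j : ι'} {B : Part S}
    (hB : PLe (A' j) (B.pull p)) (hb : B.Bd) : (l.down p).info = l.info := by
  have h2 : Nul T (fun k => (l k).leak (B.pull p k)) := by
    apply ((hl j).add hB).of_le (Eventually.of_forall fun k => FLab.leak_nonneg _ _)
    exact Eventually.of_forall fun k => (l k).leak_le_leak (B.pull p k) (A' j k)
  exact DM.info_down p (A := B) (B := B) ⟨h2, h2⟩ hb

/-- maximal informations drop under (ADD) -/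
theorem IsMaxf.info_le_of_add {T : Sp} (p : Pj T S) {A : ι → Part S} {A' : ι' → Part T} {l : Lab S} {l' : Lab T}
    (hl : l.IsMaxf A) (hl' : l'.DMf A') (hA : ∀ i, ∃ j, PLe (A' j) ((A i).pull p)) {j : ι'} {B : Part S}
    (hB : PLe (A' j) (B.pull p)) (hb : B.Bd) : l'.info ≤ l.info := by
  rw [← hl'.info_downP p hB hb]
  exact hl.2 _ (hl'.downP p hA)

/-- a partition of the space as a label -/
def ofP (X : ∀ k, Setoid (S.F k).Ω) : Lab S := fun k => ⟨(FLab.triv (S.F k)).T, (FLab.triv (S.F k)).p,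
  (FLab.triv (S.F k)).hn, X k⟩

theorem ofP_v (X : ∀ k, Setoid (S.F k).Ω) (k : ℕ) : (ofP X k).v = (ofP X k).p.map (fc (X k)) := rfl

theorem ofP_leak (X : ∀ k, Setoid (S.F k).Ω) (k : ℕ) (x : FL (S.F k)) : (ofP X k).leak x = h (fc (X k)) x := by
  have h1 : (ofP X k).leak x = I ((ofP X k).p.map (fc (X k))) (ofP X k).p.top ((ofP X k).p.map x) := rfl
  rw [h1, I_eq, h_zero (((ofP X k).p.map_le_top _).trans le_sup_left), sub_zero, (ofP X k).p.h_map]

theorem ofP_info (X : ∀ k, Setoid (S.F k).Ω) (k : ℕ) : (ofP X k).info = H (fc (X k) : FL (S.F k)) := by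
  rw [← FLab.leak_bot, ofP_leak, h_bot]

/-- a partition which is a function of every condition is a Markov label -/
theorem ofP_DMf (X : ∀ k, Setoid (S.F k).Ω) {A : ι → Part S} (h : ∀ i, PLe (fun k => fc (X k)) (A i)) :
    (ofP X).DMf A := by
  intro i
  have h1 : (fun k => (ofP X k).leak (A i k)) = fun k => Pool.Agent.Helper31.EC.h (fc (X k)) (A i k) := by
    funext k
    exact ofP_leak X k _
  rw [h1]
  exact h i

/-- in a connected space a common information of the conditions is trivial -/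
theorem Conn.common {A : ι → Part S} (hc : Conn A) (X : ∀ k, Setoid (S.F k).Ω)
    (h : ∀ i, PLe (fun k => fc (X k)) (A i)) : Nul S (fun k => H (fc (X k) : FL (S.F k))) := by
  have h1 := hc _ (ofP_DMf X h)
  have h2 : (fun k => (ofP X k).info) = fun k => H (fc (X k) : FL (S.F k)) := by
    funext k
    exact ofP_info X k
  rw [← h2]
  exact h1

end Lab

/-! ### copies of labels -/

namespace FLab

variable {F : FSp} (l : FLab F)

/-- FULLNESS of a copy: the copy of `V` given `B` leaves at least the entropy which `V` leaves, up to the leak of `V`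
at the variable itself -/
theorem rs_h_ge (B x : FL F) : h (l.p.map x) l.v - l.leak x ≤ h ((l.rs B).p.map x) (l.rs B).v := by
  have h1 : I (l.rs B).v ((l.rs B).p.map x) ⊥ ≤ (l.rs B).info :=
    I_mono_right (((l.rs B).p.map_le_top x).trans le_sup_left)
  have h2 := l.rs_info B
  have h3 := l.info_eq_leak x
  have h4 := l.leak_nonneg B
  have h5 : I (l.rs B).v ((l.rs B).p.map x) ⊥ = H x - h ((l.rs B).p.map x) (l.rs B).v := by
    rw [I_eq', h_bot, (l.rs B).p.H_map, sup_bot_eq]
  have h6 : I l.v (l.p.map x) ⊥ = H x - h (l.p.map x) l.v := by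
    rw [I_eq', h_bot, l.p.H_map, sup_bot_eq]
  linarith

end FLab

namespace Lab

variable {S : Sp}

/-- FULLNESS of a copy, rates -/
theorem rs_H_ge (l : Lab S) (B : Part S) (x : S.L) (c : ℝ) (hc : 0 < c) (hl : Nul S (fun k => (l k).leak (rp x k))) :
    H (l.upL c hc x) ≤ H ((l.rs B).upL c hc x) := by
  rw [l.H_upL, (l.rs B).H_upL]
  apply div_le_div_of_nonneg_right _ hc.le
  have hu : ∀ l0 : Lab S, UB (fun k => h ((l0 k).p.map (rp x k)) (l0 k).v / (S.F k).n) := by
    intro l0
    refine UB.sandwich (UB_const 0) ((rp_Bd x).ub (fun _ => ⊥)) ?_ ?_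
    · exact Eventually.of_forall fun k => div_nonneg (h_nonneg _ _) (S.F k).pos.le
    · refine Eventually.of_forall fun k => div_le_div_of_nonneg_right ?_ (S.F k).pos.le
      rw [h_bot, ← (l0 k).p.H_map]
      exact h_le_H _ _
  have t1 := (ul_tendsto (hu (l.rs B))).add hl
  rw [add_zero] at t1
  refine le_of_tendsto_of_tendsto (ul_tendsto (hu l)) t1 ?_
  refine Eventually.of_forall fun k => ?_
  show _ ≤ h ((l.rs B k).p.map (rp x k)) (l.rs B k).v / (S.F k).n + (l k).leak (rp x k) / (S.F k).n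
  rw [← add_div]
  apply div_le_div_of_nonneg_right _ (S.F k).pos.le
  have h1 := (l k).rs_h_ge (B k) (rp x k)
  have h2 : l.rs B k = (l k).rs (B k) := rfl
  rw [h2]
  linarith

end Lab

end

end Pool.Agent.Helper40.EL

namespace Pool.Agent.Helper56.MT

open Finset Filter Topology Pool.Agent.Helper69.RK Pool.Agent.Helper31.EC Pool.Agent.Helper40.EL

noncomputable section

theorem pb_union (G : FSp) {κ : Type} (s : Finset κ) (E : κ → G.Ω → Prop) (δ : ℝ)
    (h : ∀ i ∈ s, 1 - δ ≤ G.pb (E i)) : 1 - s.card * δ ≤ G.pb (fun ω => ∀ i ∈ s, E i ω) := by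
  classical
  induction s using Finset.induction_on with
  | empty =>
    have h1 : G.pb (fun ω => ∀ i ∈ (∅ : Finset κ), E i ω) = 1 := by
      rw [MAm.pb_ind]
      have h2 : ∑ ω, G.μ ω = 1 := G.ms
      rw [← h2]
      apply Finset.sum_congr rfl
      intro ω _
      rw [e1_ind_pos (fun i hi => absurd hi (Finset.notMem_empty i)), mul_one]
    rw [h1]
    simp
  | insert a s ha ih =>
    have h1 := ih (fun i hi => h i (Finset.mem_insert_of_mem hi))
    have h2 := h a (Finset.mem_insert_self a s)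
    have h3 : G.pb (E a) + G.pb (fun ω => ∀ i ∈ s, E i ω) ≤ 1 + G.pb (fun ω => ∀ i ∈ insert a s, E i ω) := by
      have h4 : ∑ ω, G.μ ω = 1 := G.ms
      rw [MAm.pb_ind, MAm.pb_ind, MAm.pb_ind, ← h4, ← Finset.sum_add_distrib, ← Finset.sum_add_distrib]
      apply Finset.sum_le_sum
      intro ω _
      have h5 := G.nn ω
      by_cases ha' : E a ω
      · by_cases hs' : ∀ i ∈ s, E i ω
        · rw [e1_ind_pos ha', e1_ind_pos hs', e1_ind_pos (fun i hi => by
            rcases Finset.mem_insert.mp hi with h | h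
            · rw [h]; exact ha'
            · exact hs' i h)]
          linarith
        · rw [e1_ind_pos ha', e1_ind_neg hs']
          have := ind_nonneg (∀ i ∈ insert a s, E i ω)
          nlinarith
      · rw [e1_ind_neg ha']
        by_cases hs' : ∀ i ∈ s, E i ω
        · rw [e1_ind_pos hs']
          have := ind_nonneg (∀ i ∈ insert a s, E i ω)
          nlinarith
        · rw [e1_ind_neg hs']
          have := ind_nonneg (∀ i ∈ insert a s, E i ω)
          nlinarith
    rw [Finset.card_insert_of_notMem ha]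
    push_cast
    linarith

/-- union bound for two events -/
theorem pb_two (G : FSp) (P Q : G.Ω → Prop) : G.pb P + G.pb Q ≤ 1 + G.pb (fun ω => P ω ∧ Q ω) := by
  have h4 : ∑ ω, G.μ ω = 1 := G.ms
  rw [MAm.pb_ind, MAm.pb_ind, MAm.pb_ind, ← h4, ← Finset.sum_add_distrib, ← Finset.sum_add_distrib]
  apply Finset.sum_le_sum
  intro w _
  have h5 := G.nn w
  rw [ind_and]
  by_cases ha : P w
  · rw [e1_ind_pos ha]
    linarith
  · rw [e1_ind_neg ha]
    by_cases hb : Q w
    · rw [e1_ind_pos hb]
      linarith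
    · rw [e1_ind_neg hb]
      linarith

namespace MAm

variable {F : FSp} {ι : Type} [Fintype ι] [DecidableEq ι] (M : MAm F ι)

/-- agreement of all types -/
theorem agree_all [Nontrivial ι] {β : Type} [Nonempty β] (X : ∀ i, (M.W i).Ω → β) (δ : ℝ)
    (hδ : 1 - δ ≤ M.sp.pb (fun w => ∀ i j, X i (w.2 i) = X j (w.2 j))) :
    1 - (Fintype.card ι + 1) * δ ≤ M.sp.pb
      (fun w => (∀ i, X i (w.2 i) = amax (M.nu X i ((M.D i).g w.1))) ∧ ∀ i j, X i (w.2 i) = X j (w.2 j)) := by
  have h1 : ∀ i ∈ (Finset.univ : Finset ι), 1 - δ ≤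
      M.sp.pb ((fun i w => X i (w.2 i) = amax (M.nu X i ((M.D i).g w.1))) i) := by
    intro i _
    obtain ⟨j, hj⟩ := exists_ne i
    refine hδ.trans (le_trans ?_ (M.agree X i j hj.symm))
    apply FSp.pb_mono
    intro ω _ h
    exact h i j
  have h2 := pb_union M.sp Finset.univ (fun i w => X i (w.2 i) = amax (M.nu X i ((M.D i).g w.1))) δ h1
  have h3 := pb_two M.sp (fun w => ∀ i ∈ (Finset.univ : Finset ι), X i (w.2 i) = amax (M.nu X i ((M.D i).g w.1)))
    (fun w => ∀ i j, X i (w.2 i) = X j (w.2 j))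
  have h4 : M.sp.pb (fun w => (∀ i ∈ (Finset.univ : Finset ι), X i (w.2 i) = amax (M.nu X i ((M.D i).g w.1))) ∧
      ∀ i j, X i (w.2 i) = X j (w.2 j)) ≤ M.sp.pb
      (fun w => (∀ i, X i (w.2 i) = amax (M.nu X i ((M.D i).g w.1))) ∧ ∀ i j, X i (w.2 i) = X j (w.2 j)) := by
    apply FSp.pb_mono
    intro ω _ h
    exact ⟨fun i => h.1 i (Finset.mem_univ _), h.2⟩
  rw [Finset.card_univ] at h2
  linarith

end MAm

/-! ### finite level: types -/

section fin
variable {F : FSp} {ι : Type} [Fintype ι] [DecidableEq ι] (l : ι → FLab F) (B : ι → FL F)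

/-- the amalgams of the types: copies of the labels `l i` given `B i` -/
def tyM : MAm F ι := ⟨fun i => (l i).T, fun i => (l i).rsD (B i)⟩

/-- the label of the type `i` -/
def tyV (i : ι) : Setoid (tyM l B).sp.Ω := Setoid.comap (fun w : (tyM l B).sp.Ω => w.2 i) (l i).V

theorem tyV_eq (i : ι) : (fc (tyV l B i) : FL (tyM l B).sp) = ((tyM l B).pi i).map ((l i).rs (B i)).v := rfl

omit [Fintype ι] [DecidableEq ι] in
/-- a function of the space which only depends on the condition `B i` -/
theorem gg_le {β : Type} (i : ι) (g : ((tyM l B).D i).α → β) :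
    (fc (Setoid.ker fun ω => g (((tyM l B).D i).g ω)) : FL F) ≤ B i := by
  have h1 : (fc (Setoid.ker ((l i).rsD (B i)).g) : FL F) = B i := (l i).rs_ker_g (B i)
  rw [← h1]
  apply fc_le
  intro ω ω' _ _ _ h
  have h' : ((l i).rsD (B i)).g ω = ((l i).rsD (B i)).g ω' := h
  show g (((l i).rsD (B i)).g ω) = g (((l i).rsD (B i)).g ω')
  rw [h']

theorem fsp_nonempty (G : FSp) : Nonempty G.Ω := by
  by_contra h2
  have h3 : ∑ y, G.μ y = 1 := G.ms
  have h4 : ∑ y, G.μ y = 0 := Finset.sum_eq_zero fun y _ => absurd ⟨y⟩ h2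
  rw [h4] at h3
  exact zero_ne_one h3

theorem ty_agree_b [Nontrivial ι] {β : Type} [Nonempty β] (X : ∀ i, (l i).T.Ω → β) :
      ∀ δ : ℝ, 1 - δ ≤ (tyM l B).sp.pb (fun w => ∀ i j, X i (w.2 i) = X j (w.2 j)) →
        1 - (Fintype.card ι + 1) * δ ≤ (tyM l B).sp.pb
          (fun w => (∀ i, X i (w.2 i) = MAm.amax ((tyM l B).nu X i (((tyM l B).D i).g w.1))) ∧
            ∀ i j, X i (w.2 i) = X j (w.2 j)) :=
  fun δ hδ => (tyM l B).agree_all X δ hδ

/-- AGREEMENT OF TYPES, finite level -/
theorem ty_agree [Nontrivial ι] {β : Type} (X : ∀ i, (l i).T.Ω → β) :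
    ∃ g : ι → F.Ω → β, (∀ i, (fc (Setoid.ker (g i)) : FL F) ≤ B i) ∧
      ∀ δ : ℝ, 1 - δ ≤ (tyM l B).sp.pb (fun w => ∀ i j, X i (w.2 i) = X j (w.2 j)) →
        1 - (Fintype.card ι + 1) * δ ≤ (tyM l B).sp.pb
          (fun w => (∀ i, X i (w.2 i) = g i w.1) ∧ ∀ i j, X i (w.2 i) = X j (w.2 j)) := by
  have hβ : Nonempty β := by
    obtain ⟨i0, _⟩ := exists_pair_ne ι
    obtain ⟨y0⟩ := fsp_nonempty (l i0).T
    exact ⟨X i0 y0⟩
  refine ⟨fun i ω => MAm.amax ((tyM l B).nu X i (((tyM l B).D i).g ω)), ?_, ty_agree_b l B X⟩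
  intro i
  exact gg_le l B i (fun a => MAm.amax ((tyM l B).nu X i a))

end fin

/-! ### spaces -/

section sp
variable {S : Sp} {ι : Type} [Fintype ι] [DecidableEq ι] (l : ι → Lab S) (B : ι → Part S)

/-- THE SPACE WITH MORE TYPES: conditionally independent copies of the labels `l i` given `B i` -/
def tySp : Sp where
  F := fun k => (tyM (fun i => l i k) (fun i => B i k)).sp
  lim := S.lim

/-- the projection to the old space -/
def tyP : Pj (tySp l B) S where
  π := fun _ w => w.1
  law := fun k => (tyM (fun i => l i k) (fun i => B i k)).mw_fst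
  hZ := fun _ _ _ _ _ => Iff.rfl
  hn := fun _ => rfl

/-- the projection to the space of the copy of one label -/
def tyC (i : ι) : Pj (tySp l B) ((l i).rs (B i)).sp where
  π := fun _ w => (w.2 i, w.1)
  law := fun k => (tyM (fun i => l i k) (fun i => B i k)).mw_pair i
  hZ := fun k => ((tyM (fun i => l i k) (fun i => B i k)).pi i).hZ
  hn := fun k => (l i k).hn.symm

/-- the new type -/
def tyW (i : ι) : Part (tySp l B) := fun k => fc (tyV (fun i => l i k) (fun i => B i k) i)

theorem tyW_eq (i : ι) (k : ℕ) : tyW l B i k = ((tyC l B i).fp k).map ((l i).rs (B i) k).v := rfl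

theorem tyC_comap (i : ι) (k : ℕ) (x : FL (S.F k)) :
    ((tyC l B i).fp k).map (((l i).rs (B i) k).p.map x) = ((tyP l B).fp k).map x := by
  induction x using fc_ind
  rfl

/-- the new type is independent of the space given its condition -/
theorem tyW_leak (i : ι) (k : ℕ) (x : FL (S.F k)) :
    I (tyW l B i k) (((tyP l B).fp k).map x) (((tyP l B).fp k).map (B i k)) = 0 := by
  rw [← tyC_comap l B i k x, ← tyC_comap l B i k (B i k), tyW_eq]
  have h2 := ((tyC l B i).fp k).I_map ((l i).rs (B i) k).v (((l i).rs (B i) k).p.map x)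
    (((l i).rs (B i) k).p.map (B i k))
  refine h2.trans (le_antisymm ?_ (I_nonneg _ _ _))
  have h1 : ((l i).rs (B i) k).leak (B i k) = 0 := FLab.rs_leak _ _
  refine le_trans ?_ h1.le
  exact I_mono_right ((((l i).rs (B i) k).p.map_le_top x).trans le_sup_left)

/-- entropies given the new type -/
theorem tyW_h (i : ι) (k : ℕ) (x : FL (S.F k)) : h (((tyP l B).fp k).map x) (tyW l B i k) =
    h (((l i).rs (B i) k).p.map x) ((l i).rs (B i) k).v := by
  rw [← tyC_comap l B i k x, tyW_eq]
  exact ((tyC l B i).fp k).h_map _ _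

/-- FULLNESS of the new type -/
theorem tyW_h_ge (i : ι) (k : ℕ) (x : FL (S.F k)) :
    h ((l i k).p.map x) (l i k).v - (l i k).leak x ≤ h (((tyP l B).fp k).map x) (tyW l B i k) := by
  rw [tyW_h]
  exact (l i k).rs_h_ge (B i k) x

/-- the value of the type `i` -/
def tyX {β : ℕ → Type} (X : ∀ i k, (l i k).T.Ω → β k) (i : ι) (k : ℕ) (w : ((tySp l B).F k).Ω) : β k := X i k (w.2 i)

/-- AGREEMENT OF TYPES (29e NSL (3)): if values of the new types (functions on the spaces of the labels, constant on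
the labels) agree with probability `≥ 1 - δ`, `(card ι + 1) δ + δ' < 1`, then on an event of positive probability (inside
a given event `G` of probability `≥ 1 - δ'`) the common value is a function of every condition and of every new type. -/
theorem ty_label [Nontrivial ι] {β : ℕ → Type} (X : ∀ i k, (l i k).T.Ω → β k)
    (hX : ∀ i k y y', (l i k).V y y' → X i k y = X i k y') (δ : ℝ)
    (h : ∀ᶠ k in UF, 1 - δ ≤ ((tySp l B).F k).pb (fun w => ∀ i j, tyX l B X i k w = tyX l B X j k w))
    (G : ∀ k, ((tySp l B).F k).Ω → Prop) (δ' : ℝ) (hδ' : (Fintype.card ι + 1) * δ + δ' < 1)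
    (hG : ∀ᶠ k in UF, 1 - δ' ≤ ((tySp l B).F k).pb (G k)) :
    ∃ E : ∀ k, ((tySp l B).F k).Ω → Prop, 1 - ((Fintype.card ι + 1) * δ + δ') ≤ ul ((tySp l B).pr E) ∧
      (∀ k w, E k w → G k w) ∧ (∀ k w, E k w → ∀ i j, tyX l B X i k w = tyX l B X j k w) ∧
      ∀ᶠ k in UF, ∀ i₀ i : ι,
        ((tySp l B).F k).rmap (E k) (fc (Setoid.ker (tyX l B X i₀ k))) ≤
          ((tySp l B).F k).rmap (E k) (((tyP l B).fp k).map (B i k)) ∧
        ((tySp l B).F k).rmap (E k) (fc (Setoid.ker (tyX l B X i₀ k))) ≤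
          ((tySp l B).F k).rmap (E k) (tyW l B i k) := by
  choose g hg1 hg2 using fun k => ty_agree (fun i => l i k) (fun i => B i k) (fun i => X i k)
  set P : ∀ k, ((tySp l B).F k).Ω → Prop := fun k w =>
    (∀ i, tyX l B X i k w = g k i w.1) ∧ ∀ i j, tyX l B X i k w = tyX l B X j k w with hP
  have hpb : ∀ᶠ k in UF, 1 - ((Fintype.card ι + 1) * δ + δ') ≤ ((tySp l B).F k).pb (fun w => P k w ∧ G k w) := by
    filter_upwards [h, hG] with k hk hGk
    have h1 : 1 - (Fintype.card ι + 1) * δ ≤ ((tySp l B).F k).pb (P k) := hg2 k δ hk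
    have h3 := pb_two ((tySp l B).F k) (P k) (G k)
    linarith
  refine ⟨fun k w => P k w ∧ G k w, ?_, fun k w hw => hw.2, fun k w hw => hw.1.2, ?_⟩
  · exact const_le_ul (Sp.UB_pr _) hpb
  · filter_upwards [hpb] with k hk i₀ i
    have hne : ((tySp l B).F k).pb (fun w => P k w ∧ G k w) ≠ 0 := by
      intro h0
      rw [h0] at hk
      linarith
    constructor
    · have h1 : (fc (Setoid.ker (g k i)) : FL (S.F k)) ≤ B i k := hg1 k i
      refine le_trans ?_ (FSp.rmap_mono _ _ (((tyP l B).fp k).map_mono h1))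
      refine fc_le (F := ((tySp l B).F k).rest (fun w => P k w ∧ G k w)) ?_
      intro w w' hw hw' _ e
      have a := ((FSp.rest_supp ((tySp l B).F k) (fun w => P k w ∧ G k w) w hw).2 hne).1
      have a' := ((FSp.rest_supp ((tySp l B).F k) (fun w => P k w ∧ G k w) w' hw').2 hne).1
      have e' : g k i w.1 = g k i w'.1 := e
      show tyX l B X i₀ k w = tyX l B X i₀ k w'
      rw [a.2 i₀ i, a'.2 i₀ i, a.1 i, a'.1 i, e']
    · refine fc_le (F := ((tySp l B).F k).rest (fun w => P k w ∧ G k w)) ?_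
      intro w w' hw hw' _ e
      have a := ((FSp.rest_supp ((tySp l B).F k) (fun w => P k w ∧ G k w) w hw).2 hne).1
      have a' := ((FSp.rest_supp ((tySp l B).F k) (fun w => P k w ∧ G k w) w' hw').2 hne).1
      show tyX l B X i₀ k w = tyX l B X i₀ k w'
      rw [a.2 i₀ i, a'.2 i₀ i]
      exact hX i k _ _ e

end sp

end

end Pool.Agent.Helper56.MT
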